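import Pool.Agent.NPX.Stmts
import Pool.Agent.LSG.Stmts

/-! # NPX row MAN: the counting -/

set_option autoImplicit false

open MeasureTheory Set Topology Pointwise

namespace Pool.Agent.NPX.H59

open Pool.Agent.LSG Pool.Agent.NPX

theorem man (hPwr : PwrStmt) (hExn : ExnStmt) (hFol : FolStmt) (hAvg : AvgStmt)
    (hTri : TriStmt) (hGnr : GnrStmt) (hSpb : SpbStmt) (hRpv : Pool.Agent.LSG.RpvStmt) :
    ManStmt := by
  classical
  intro K _ _ _ _ _ _ _ _ G hG p q hLEq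
  obtain ⟨T0, hT1, hT2⟩ := hLEq
  obtain ⟨c, hc⟩ := hRpv _ _ (T0 : C(G × Fin p, ℝ) →ₗ[ℝ] C(G × Fin q, ℝ)) hT1
  obtain ⟨d, hd⟩ := hRpv _ _ (T0.symm : C(G × Fin q, ℝ) →ₗ[ℝ] C(G × Fin p, ℝ)) hT2
  obtain ⟨S, hScount, hSG, hSpow, hSc, hSd⟩ := hSpb K G hG p q _ c _ d hc hd
  obtain ⟨-, -, -, -, -, -, -, -, -, hUncong, V, hVne, hVUn, hVdiff, hVrep⟩ := hPwr K
  by_contra hlt
  rw [not_le] at hlt
  have hpq : (p : ℝ) + 1 ≤ q := by exact_mod_cast hlt
  have hp0 : (0 : ℝ) ≤ p := Nat.cast_nonneg p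
  have hden : (0 : ℝ) < p + q + 1 := by linarith
  obtain ⟨ε, hε⟩ : ∃ ε : ℝ, ε = 1 / ((p : ℝ) + q + 1) := ⟨_, rfl⟩
  have hε0 : 0 < ε := by rw [hε]; positivity
  have hεe : ε * ((p : ℝ) + q + 1) = 1 := by rw [hε]; field_simp
  have hε1 : ε < 1 := by nlinarith
  have hkey : (p : ℝ) * (1 + ε) < q * (1 - ε) := by nlinarith
  obtain ⟨δ, hδ, hδ2⟩ := hAvg K G hG V hVne hVUn ε hε0 hε1
  obtain ⟨H, n, M, hHS, hM, hMδ, hMsup⟩ := hExn K G S hG p q _ c hc hScount hSc δ hδ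
  obtain ⟨F, F', hFne, hFS, hF'S, hFcard, hFF⟩ := hFol K S V hSpow hVUn H n ε hHS hε0
  obtain ⟨x, hxG, ⟨hx1, hx2⟩, hcount⟩ := hδ2 M F hM hMδ hFne (fun x => Gn c S x ∧ Gn d S x)
    ((hGnr K G p q c S hScount hSc).and (hGnr K G q p d S hScount hSd))
  -- the points
  let WF : Finset (ℤ × K) := (V ×ˢ F).filter fun w => x ^ w.1 * w.2 ∈ M
  have hWF : Set.ncard {w : ℤ × K | w.1 ∈ V ∧ w.2 ∈ F ∧ x ^ w.1 * w.2 ∈ M} = WF.card := by
    rw [← Set.ncard_coe_finset]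
    refine congrArg _ (Set.ext fun w => ?_)
    show _ ↔ w ∈ WF
    rw [Finset.mem_filter, Finset.mem_product]
    exact and_assoc.symm
  have hmemG : ∀ (v : ℤ) (f : K), f ∈ S → x ^ v * f ∈ G := fun v f hf =>
    G.mul_mem (G.zpow_mem hxG v) (hSG hf)
  have hWm : ∀ w : {w // w ∈ WF}, w.1.1 ∈ V ∧ w.1.2 ∈ F ∧ x ^ w.1.1 * w.1.2 ∈ M := by
    intro w
    have := w.2
    rw [Finset.mem_filter, Finset.mem_product] at this
    exact ⟨this.1.1, this.1.2, this.2⟩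
  -- the injection
  let ι : {w // w ∈ WF} × Fin q → {b : G × Fin q // (b.1 : K) ∈ Tp S x} := fun z =>
    ⟨(⟨x ^ z.1.1.1 * z.1.1.2, hmemG _ _ (hFS _ (hWm z.1).2.1)⟩, z.2),
      ⟨z.1.1.1, hVUn _ (hWm z.1).1, z.1.1.2, hFS _ (hWm z.1).2.1, rfl⟩⟩
  have hι : Function.Injective ι := by
    intro z z' h
    have h1 : (⟨x ^ z.1.1.1 * z.1.1.2, hmemG _ _ (hFS _ (hWm z.1).2.1)⟩, z.2) =
        ((⟨x ^ z'.1.1.1 * z'.1.1.2, hmemG _ _ (hFS _ (hWm z'.1).2.1)⟩, z'.2) : G × Fin q) :=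
      congrArg Subtype.val h
    have h2 : x ^ z.1.1.1 * z.1.1.2 = x ^ z'.1.1.1 * z'.1.1.2 :=
      congrArg (fun b : G × Fin q => (b.1 : K)) h1
    have h3 : z.2 = z'.2 := congrArg (fun b : G × Fin q => b.2) h1
    have h4 : x ^ (z.1.1.1 - z'.1.1.1) ∈ S := by
      have e : x ^ (z.1.1.1 - z'.1.1.1) = z'.1.1.2 * (z.1.1.2)⁻¹ := by
        rw [zpow_sub, eq_mul_inv_iff_mul_eq, mul_right_comm, h2, mul_right_comm,
          mul_inv_cancel, one_mul]
      rw [e]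
      exact S.mul_mem (hFS _ (hWm z'.1).2.1) (S.inv_mem (hFS _ (hWm z.1).2.1))
    have h5 : z.1.1.1 = z'.1.1.1 := by
      by_contra hne
      exact hx1.pow _ (hVdiff _ (hWm z.1).1 _ (hWm z'.1).1 hne) h4
    have h6 : z.1.1.2 = z'.1.1.2 := by
      rw [h5] at h2
      exact mul_left_cancel h2
    exact Prod.ext (Subtype.ext (Prod.ext h5 h6)) h3
  -- linear independence
  have hli := hTri K G S p q _ c _ d x hc hd (fun g => T0.apply_symm_apply g) hSG hxG hSpow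
    hSd.1 hx1 hx2
  have hli2 := hli.comp ι hι
  -- the target
  let AF : Finset (G × Fin p) := ((V ×ˢ F').attach ×ˢ (Finset.univ : Finset (Fin p))).image
    fun w => (⟨x ^ w.1.1.1 * w.1.1.2, hmemG _ _ (hF'S _ (Finset.mem_product.1 w.1.2).2)⟩, w.2)
  have hAF : AF.card ≤ V.card * F'.card * p := by
    refine Finset.card_image_le.trans ?_
    rw [Finset.card_product, Finset.card_attach, Finset.card_product, Finset.card_univ,
      Fintype.card_fin]
  have hsup : ∀ (z : {w // w ∈ WF} × Fin q) (a : G × Fin p), c (ι z).1 a ≠ 0 →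
      (a.1 : K) ∈ Tp S x → a ∈ AF := by
    intro z a ha hat
    obtain ⟨j, hj, hh⟩ := hMsup (ι z).1.1 (ι z).1.2 a (hWm z.1).2.2 ha
    obtain ⟨u', hu', s', hs', ha'⟩ := hat
    have hb : (((ι z).1.1 : G) : K) = x ^ z.1.1.1 * z.1.1.2 := rfl
    rw [hb] at hh
    have hsS : z.1.1.2 ∈ S := hFS _ (hWm z.1).2.1
    have e1 : (a.1 : K) = x ^ (z.1.1.1 * j) * (z.1.1.2 ^ j *
        ((a.1 : K) * ((x ^ z.1.1.1 * z.1.1.2) ^ j)⁻¹)) := by
      rw [mul_zpow, zpow_mul, mul_inv]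
      have : ∀ A B C : K, C = A * (B * (C * (A⁻¹ * B⁻¹))) := by
        intro A B C
        rw [show A * (B * (C * (A⁻¹ * B⁻¹))) = (A * A⁻¹) * (B * B⁻¹) * C by
          ac_rfl, mul_inv_cancel, mul_inv_cancel, one_mul, one_mul]
      exact this _ _ _
    have h4 : x ^ (u' - z.1.1.1 * j) ∈ S := by
      have e : x ^ (u' - z.1.1.1 * j) = z.1.1.2 ^ j *
          ((a.1 : K) * ((x ^ z.1.1.1 * z.1.1.2) ^ j)⁻¹) * s'⁻¹ := by
        rw [zpow_sub, eq_mul_inv_iff_mul_eq, mul_right_comm, ← ha']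
        rw [mul_inv_eq_iff_eq_mul]
        rw [mul_comm _ (x ^ (z.1.1.1 * j))]
        exact e1
      rw [e]
      exact S.mul_mem (S.mul_mem (S.zpow_mem hsS j) (hHS _ hh)) (S.inv_mem hs')
    have h5 : ¬ Inf K (u' - z.1.1.1 * j) := fun hI => hx1.pow _ hI h4
    have h6 : Un K (z.1.1.1 * j) := hUncong _ _ hu' h5
    obtain ⟨v, hv, hv2⟩ := hVrep _ h6
    have h7 := hFF _ (hWm z.1).2.1 _ hh _ (hWm z.1).1 v hv j hj hv2 x
    have e2 : (a.1 : K) = x ^ v * (z.1.1.2 ^ j *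
        ((a.1 : K) * ((x ^ z.1.1.1 * z.1.1.2) ^ j)⁻¹) * x ^ (z.1.1.1 * j - v)) := by
      rw [zpow_sub]
      have : ∀ A B C : K, A * (B * (C * A⁻¹)) = C * B := by
        intro A B C
        rw [show A * (B * (C * A⁻¹)) = (A * A⁻¹) * (C * B) by ac_rfl, mul_inv_cancel, one_mul]
      rw [this]
      exact e1
    refine Finset.mem_image.2 ⟨(⟨(v, z.1.1.2 ^ j *
        ((a.1 : K) * ((x ^ z.1.1.1 * z.1.1.2) ^ j)⁻¹) * x ^ (z.1.1.1 * j - v)),
        Finset.mem_product.2 ⟨hv, h7⟩⟩, a.2), Finset.mem_product.2 ⟨Finset.mem_attach _ _,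
        Finset.mem_univ _⟩, ?_⟩
    exact Prod.ext (Subtype.ext e2.symm) rfl
  -- restriction
  have hli3 : LinearIndependent ℝ (fun (z : {w // w ∈ WF} × Fin q) (a : {a // a ∈ AF}) =>
      ((c (ι z).1).filter fun a => (a.1 : K) ∈ Tp S x) a.1) := by
    rw [Fintype.linearIndependent_iff]
    intro g hg
    refine Fintype.linearIndependent_iff.1 hli2 g ?_
    refine Finsupp.ext fun a => ?_
    rw [Finsupp.finset_sum_apply, Finsupp.zero_apply]
    by_cases ha : a ∈ AF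
    · have := congrFun hg ⟨a, ha⟩
      rw [Finset.sum_apply] at this
      exact this
    · refine Finset.sum_eq_zero fun z _ => ?_
      show g z * ((c (ι z).1).filter fun a => (a.1 : K) ∈ Tp S x) a = 0
      rw [Finsupp.filter_apply]
      split_ifs with h1
      · by_cases h2 : c (ι z).1 a = 0
        · rw [h2, mul_zero]
        · exact absurd (hsup z a h2 h1) ha
      · rw [mul_zero]
  have hcard := hli3.fintype_card_le_finrank
  rw [Module.finrank_fintype_fun_eq_card, Fintype.card_prod, Fintype.card_coe, Fintype.card_coe,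
    Fintype.card_fin] at hcard
  rw [hWF] at hcount
  have hc1 : (WF.card : ℝ) * q ≤ V.card * F'.card * p := by
    exact_mod_cast hcard.trans hAF
  have hV0 : (0 : ℝ) < V.card := by exact_mod_cast hVne.card_pos
  have hF0 : (0 : ℝ) < F.card := by exact_mod_cast hFne.card_pos
  have hq0 : (0 : ℝ) ≤ q := Nat.cast_nonneg q
  have c1 : (1 - ε) * ((V.card : ℝ) * F.card) * q ≤ V.card * ((1 + ε) * F.card) * p := by
    calc (1 - ε) * ((V.card : ℝ) * F.card) * q ≤ WF.card * q :=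
          mul_le_mul_of_nonneg_right hcount hq0
      _ ≤ V.card * F'.card * p := hc1
      _ ≤ V.card * ((1 + ε) * F.card) * p :=
          mul_le_mul_of_nonneg_right (mul_le_mul_of_nonneg_left hFcard hV0.le) hp0
  have hVF : (0 : ℝ) < V.card * F.card := mul_pos hV0 hF0
  have c2 : ((V.card : ℝ) * F.card) * (q * (1 - ε)) ≤ (V.card * F.card) * (p * (1 + ε)) := by
    calc ((V.card : ℝ) * F.card) * (q * (1 - ε)) = (1 - ε) * (V.card * F.card) * q := by ring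
      _ ≤ V.card * ((1 + ε) * F.card) * p := c1
      _ = (V.card * F.card) * (p * (1 + ε)) := by ring
  have c3 := le_of_mul_le_mul_left c2 hVF
  linarith

end Pool.Agent.NPX.H59
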